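import Pool.Agent.H90.MG.BaseAux

/-!
The base instances: value less than `ε` for every `ε ≥ 1000 log (d R) / R`, passing consistency
tests of linear width.
-/

namespace Pool.H90.MG

open Finset
open scoped Classical

noncomputable section

lemma three_eighth_pow (K : ℕ) (x : ℝ) (hx : 4 * x ≤ K) :
    ((3:ℝ) / 8) ^ K ≤ Real.exp (-(3 * x)) := by
  have h1 : ((3:ℝ) / 8) ≤ Real.exp (-(3 / 4)) := by
    have h2 : Real.exp (3 / 4) ≤ 8 / 3 := by
      have h3 : Real.exp (3 / 4) = Real.exp 1 ^ ((3:ℝ) / 4) := by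
        rw [← Real.exp_mul]; norm_num
      have h4 : Real.exp 1 < 2.7182818286 := Real.exp_one_lt_d9
      have h5 : Real.exp (3 / 4) ^ 4 ≤ (8 / 3 : ℝ) ^ 4 := by
        rw [← Real.exp_nat_mul]
        have e : ((4:ℕ) : ℝ) * (3 / 4) = 3 := by norm_num
        rw [e]
        have e3 : Real.exp 3 = Real.exp 1 ^ 3 := by
          rw [← Real.exp_nat_mul]; norm_num
        rw [e3]
        have h6 : Real.exp 1 ^ 3 ≤ (2.7182818286 : ℝ) ^ 3 :=
          pow_le_pow_left₀ (Real.exp_pos 1).le h4.le 3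
        refine h6.trans ?_
        norm_num
      exact le_of_pow_le_pow_left₀ (by norm_num) (by norm_num) h5
    rw [Real.exp_neg]
    rw [le_inv_comm₀ (by norm_num) (Real.exp_pos _)]
    refine h2.trans ?_
    norm_num
  calc ((3:ℝ) / 8) ^ K ≤ Real.exp (-(3 / 4)) ^ K := pow_le_pow_left₀ (by norm_num) h1 K
    _ = Real.exp (K * (-(3 / 4))) := (Real.exp_nat_mul _ _).symm
    _ ≤ Real.exp (-(3 * x)) := Real.exp_le_exp.2 (by linarith)

/-- For all `d ≥ 2`, `0 < ε ≤ 1` and `R` with `1000 log (d R) ≤ ε R` there are `γ > 0` and `n₀`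
such that for every `n ≥ n₀` some d-to-1 Label Cover instance with `n` vertices on either side has
value less than `ε` and passes the `⌊γ n⌋`-consistency test. -/
theorem base : ∀ d : ℕ, 2 ≤ d → ∀ ε : ℝ, 0 < ε → ε ≤ 1 → ∀ R : ℕ,
    1000 * Real.log (d * R) ≤ ε * R → 2 ≤ R → ∃ γ : ℝ, 0 < γ ∧ ∃ n₀ : ℕ, ∀ n ≥ n₀,
      ∃ Φ : LabelCover (Fin n) (Fin n) d R, Φ.E.Nonempty ∧
        Φ.value < ε ∧ Φ.LocallyConsistent ⌊γ * n⌋₊ := by
  intro d hd ε hε hε1 R hR hR2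
  have hd' : (2:ℝ) ≤ d := by exact_mod_cast hd
  have hR2' : (2:ℝ) ≤ R := by exact_mod_cast hR2
  have hdR : (4:ℝ) ≤ d * R := by nlinarith
  set L := Real.log (d * R) with hL
  have hL1 : (1:ℝ) ≤ L := by
    rw [hL, Real.le_log_iff_exp_le (by linarith)]
    have := Real.exp_one_lt_d9
    linarith
  have hR1000 : (1000:ℝ) ≤ R := by nlinarith
  have hR1000' : 1000 ≤ R := by exact_mod_cast hR1000
  have hR4 : R / 4 ≠ 0 := by omega
  obtain ⟨p, hp, hp1, hp2⟩ := Nat.exists_prime_lt_and_le_two_mul (R / 4) hR4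
  haveI : Fact p.Prime := ⟨hp⟩
  have h2p : 2 * p ≤ R := by omega
  have h4p : R ≤ 4 * p := by omega
  have h4p' : (R:ℝ) ≤ 4 * p := by exact_mod_cast h4p
  have hp0 : (0:ℝ) < p := by exact_mod_cast hp.pos
  set Δ := p / 8 with hΔdef
  have hpΔ : 8 * Δ ≤ p := by omega
  have hΔp : p ≤ 16 * Δ := by omega
  have hΔ0 : 0 < Δ := by omega
  have hΔp' : (p:ℝ) ≤ 16 * Δ := by exact_mod_cast hΔp
  have hpΔ' : (8:ℝ) * Δ ≤ p := by exact_mod_cast hpΔ
  set K := ⌈4 * L⌉₊ with hKdef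
  have hK1 : 4 * L ≤ K := Nat.le_ceil _
  have hK2 : (K:ℝ) ≤ 5 * L := by
    have : (K:ℝ) < 4 * L + 1 := Nat.ceil_lt_add_one (by linarith)
    linarith
  have hK0 : 0 < K := by
    have : (0:ℝ) < K := by linarith
    exact_mod_cast this
  have hA : (R : ℝ) * (d * R) * (3 * Δ / K / p) ^ K ≤ 1 / 4 := by
    have hD0 : (0:ℝ) < Δ := by exact_mod_cast hΔ0
    have hK1' : (1:ℝ) ≤ K := by linarith
    have e1 : 3 * (Δ:ℝ) / K / p ≤ 3 / 8 := by
      rw [div_div, div_le_div_iff₀ (by positivity) (by norm_num)]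
      have h1 : (p:ℝ) ≤ K * p := by nlinarith
      nlinarith
    have e2 : (3 * (Δ:ℝ) / K / p) ^ K ≤ (3 / 8 : ℝ) ^ K :=
      pow_le_pow_left₀ (by positivity) e1 K
    have e3 := three_eighth_pow K L hK1
    have e4 : (R : ℝ) * (d * R) ≤ Real.exp (2 * L) / 2 := by
      have : Real.exp (2 * L) = (d * R) * (d * R) := by
        rw [two_mul, Real.exp_add, hL, Real.exp_log (by linarith)]
      rw [this]
      have h1 : (R:ℝ) ≤ d * R / 2 := by nlinarith
      have h2 : (0:ℝ) ≤ d * R := by linarith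
      nlinarith [mul_le_mul_of_nonneg_right h1 h2]
    have e5 : Real.exp (-L) ≤ 1 / 2 := by
      rw [Real.exp_neg, hL, Real.exp_log (by linarith)]
      rw [inv_le_comm₀ (by linarith) (by norm_num)]
      linarith
    calc (R : ℝ) * (d * R) * (3 * Δ / K / p) ^ K
        ≤ (Real.exp (2 * L) / 2) * Real.exp (-(3 * L)) :=
          mul_le_mul e4 (e2.trans e3) (by positivity) (by positivity)
      _ = Real.exp (-L) / 2 := by
          rw [div_mul_eq_mul_div, ← Real.exp_add]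
          congr 2
          ring
      _ ≤ 1 / 4 := by linarith
  obtain ⟨γ, hγ, n₀, hmain⟩ := main_aux d p (R - p) Δ K hK0 hd (by omega) hΔ0 hpΔ (by omega) hA
  refine ⟨γ, hγ, n₀, fun n hn => ?_⟩
  obtain ⟨hn0, Φ, hΦ1, hΦ2, hΦ3, hΦ4⟩ := hmain n hn
  have hn' : (0:ℝ) < n := by exact_mod_cast hn0
  have hEpos : 0 < Φ.E.card := by
    have : 0 < Δ * n := Nat.mul_pos hΔ0 hn0
    omega
  refine ⟨Φ, Finset.card_pos.1 hEpos, ?_, hΦ4⟩
  have hR0 : 0 < R := by omega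
  haveI : Nonempty (Fin R) := ⟨⟨0, hR0⟩⟩
  haveI : Nonempty (Fin (d * R)) := ⟨⟨0, Nat.mul_pos (by omega) hR0⟩⟩
  unfold LabelCover.value
  obtain ⟨fg, hfg⟩ := exists_eq_ciSup_of_finite
    (f := fun fg : (Fin n → Fin R) × (Fin n → Fin (d * R)) =>
      ((Φ.E.filter (fun e => Φ.π e (fg.2 e.2) = fg.1 e.1)).card : ℝ) / (Φ.E.card : ℝ))
  rw [← hfg]
  have hE' : (0:ℝ) < Φ.E.card := by exact_mod_cast hEpos
  rw [div_lt_iff₀ hE']
  have h1 : ((Φ.E.filter (fun e => Φ.π e (fg.2 e.2) = fg.1 e.1)).card : ℝ) < K * n := by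
    exact_mod_cast hΦ3 fg.1 fg.2
  have h2 : (Δ:ℝ) * n ≤ 2 * Φ.E.card := by exact_mod_cast hΦ2
  have h3 : 10 * L ≤ ε * Δ := by
    have : ε * R ≤ ε * (64 * Δ) := mul_le_mul_of_nonneg_left (by linarith) hε.le
    nlinarith
  have h4 : (K:ℝ) * n ≤ ε * Φ.E.card := by
    have h5 : ε * (Δ * n) ≤ ε * (2 * Φ.E.card) := mul_le_mul_of_nonneg_left h2 hε.le
    have h6 : 10 * L * n ≤ ε * Δ * n := mul_le_mul_of_nonneg_right h3 hn'.le
    have h7 : (K:ℝ) * n ≤ 5 * L * n := mul_le_mul_of_nonneg_right hK2 hn'.le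
    nlinarith
  linarith

end

end Pool.H90.MG
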