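import Pool.Agent.H17.LC6

/-!
Random d-to-1 games: soundness with a general threshold `K n` instead of `8 n`, and the deletion
argument of helper17 with this threshold.
-/

namespace Pool.H90.MG

open Finset
open scoped Classical
open Pool.H17.LC

set_option linter.unusedSectionVars false
set_option linter.unusedFintypeInType false
set_option linter.style.haveILetI false

noncomputable section

variable {Y Λl Λr : Type} [Fintype Y] [Fintype Λl] [Fintype Λr] {n : ℕ}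

/-- Soundness: with probability at least `3/4` every labelling satisfies fewer than `K n`
indices. -/
lemma pr_soundK [Nonempty Y] (π : Y → Λr → Λl) (p Δ K : ℕ) (hK : 0 < K) (hp : 0 < p) (hn : 0 < n)
    (hsat : ∀ b c, (Finset.univ.filter (fun y => π y b = c)).card * p ≤ Fintype.card Y)
    (hA : (Fintype.card Λl : ℝ) * Fintype.card Λr * (3 * Δ / K / p) ^ K ≤ 1 / 4) :
    pr (fun ω : Fin (Δ * n) → Fin n × Fin n × Y => ¬ ∀ (f : Fin n → Λl) (g : Fin n → Λr),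
      (Finset.univ.filter (fun i => π (ω i).2.2 (g (ω i).2.1) = f (ω i).1)).card < K * n) ≤
      1 / 4 := by
  haveI : Nonempty (Fin n) := ⟨⟨0, hn⟩⟩
  have hn' : (0:ℝ) < n := by exact_mod_cast hn
  have hp' : (0:ℝ) < p := by exact_mod_cast hp
  set s : Finset (((Fin n → Λl) × (Fin n → Λr)) × Finset (Fin (Δ * n))) :=
    Finset.univ ×ˢ (Finset.powersetCard (K * n) Finset.univ) with hs
  let P : (((Fin n → Λl) × (Fin n → Λr)) × Finset (Fin (Δ * n))) →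
      (Fin (Δ * n) → Fin n × Fin n × Y) → Prop := fun k ω => ∀ i ∈ k.2, ω i ∈
        Finset.univ.filter (fun x : Fin n × Fin n × Y => π x.2.2 (k.1.2 x.2.1) = k.1.1 x.1)
  have h1 : pr (fun ω : Fin (Δ * n) → Fin n × Fin n × Y => ¬ ∀ (f : Fin n → Λl)
      (g : Fin n → Λr), (Finset.univ.filter
        (fun i => π (ω i).2.2 (g (ω i).2.1) = f (ω i).1)).card < K * n) ≤
      pr (fun ω => ∃ k ∈ s, P k ω) := by
    apply pr_mono
    intro ω hω
    push Not at hω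
    obtain ⟨f, g, h⟩ := hω
    obtain ⟨J, hJ, hJc⟩ := Finset.exists_subset_card_eq h
    refine ⟨((f, g), J), ?_, ?_⟩
    · rw [hs, Finset.mem_product]
      exact ⟨Finset.mem_univ _, Finset.mem_powersetCard.2 ⟨Finset.subset_univ _, hJc⟩⟩
    · intro i hi
      have := (Finset.mem_filter.1 (hJ hi)).2
      exact Finset.mem_filter.2 ⟨Finset.mem_univ _, this⟩
  refine h1.trans ((pr_exists_le s P).trans ?_)
  have h2 : ∀ k ∈ s, pr (P k) ≤ (1 / p : ℝ) ^ (K * n) := by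
    intro k hk
    have hkc : k.2.card = K * n := (Finset.mem_powersetCard.1 (Finset.mem_product.1 hk).2).2
    rw [← hkc]
    exact pr_all_le' k.2 _ _ (card_sat_le π p hp hsat k.1.1 k.1.2)
  have hcard : (s.card : ℝ) = (Fintype.card Λl : ℝ) ^ n * (Fintype.card Λr : ℝ) ^ n *
      ((Δ * n).choose (K * n) : ℕ) := by
    rw [hs, Finset.card_product, Finset.card_univ, Finset.card_powersetCard, Finset.card_univ]
    simp only [Fintype.card_prod, Fintype.card_pi, Finset.prod_const, Finset.card_univ,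
      Fintype.card_fin]
    push_cast
    ring
  have hchoose : (((Δ * n).choose (K * n) : ℕ) : ℝ) ≤ (3 * Δ / K : ℝ) ^ (K * n) := by
    have h := choose_mul_pow_le (Δ * n) (K * n)
    have h8 : (0:ℝ) < ((K * n : ℕ) : ℝ) ^ (K * n) := by positivity
    rw [← le_div_iff₀ h8, ← div_pow] at h
    refine h.trans (le_of_eq ?_)
    congr 1
    push_cast
    field_simp
  calc ∑ k ∈ s, pr (P k) ≤ ∑ _k ∈ s, (1 / p : ℝ) ^ (K * n) := Finset.sum_le_sum h2
    _ = s.card * (1 / p : ℝ) ^ (K * n) := by rw [Finset.sum_const, nsmul_eq_mul]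
    _ ≤ (Fintype.card Λl : ℝ) ^ n * (Fintype.card Λr : ℝ) ^ n * (3 * Δ / K : ℝ) ^ (K * n) *
        (1 / p : ℝ) ^ (K * n) := by
        rw [hcard]
        gcongr
    _ = ((Fintype.card Λl : ℝ) * Fintype.card Λr * (3 * Δ / K / p) ^ K) ^ n := by
        rw [mul_pow, mul_pow, ← pow_mul, div_eq_mul_one_div (3 * (Δ:ℝ) / K) (p:ℝ), mul_pow]
        ring
    _ ≤ (1 / 4 : ℝ) ^ n := by
        apply pow_le_pow_left₀ (by positivity) hA
    _ ≤ (1 / 4 : ℝ) ^ 1 := pow_le_pow_of_le_one (by norm_num) (by norm_num) hn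
    _ = 1 / 4 := by norm_num

theorem exists_omegaK [Nonempty Y] (π : Y → Λr → Λl) (clash : Y → Y → Prop) (p Δ Q T K : ℕ) (hK : 0 < K)
    (hp : 0 < p) (hΔ : 0 < Δ) (hQ : 0 < Q) (hpΔ : 8 * Δ ≤ p)
    (hsat : ∀ b c, (Finset.univ.filter (fun y => π y b = c)).card * p ≤ Fintype.card Y)
    (hclash : (Finset.univ.filter (fun yy : Y × Y => clash yy.1 yy.2)).card * p ≤
      Fintype.card Y ^ 2)
    (hA : (Fintype.card Λl : ℝ) * Fintype.card Λr * (3 * Δ / K / p) ^ K ≤ 1 / 4) :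
    ∃ n₀ : ℕ, ∀ n ≥ n₀, 0 < n ∧ ∀ N : ℕ, (36 * Δ) ^ Q * (3 * Δ) * N ≤ n →
      ∃ (ω : Fin (Δ * n) → Fin n × Fin n × Y) (I : Finset (Fin (Δ * n))),
        Δ * n ≤ 2 * I.card ∧
        (∀ (f : Fin n → Λl) (g : Fin n → Λr) (J : Finset (Fin (Δ * n))),
          (∀ i ∈ J, π (ω i).2.2 (g (ω i).2.1) = f (ω i).1) → J.card < K * n) ∧
        (∀ S : Finset (Fin n ⊕ Fin n), S.Nonempty → S.card ≤ N →
          (I.filter (fun i => inside (ω i) S)).card < S.card + tq Q S.card) ∧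
        (∀ ℓ, 2 ≤ ℓ → ℓ ≤ T → ∀ (c : Fin ℓ → Fin n ⊕ Fin n) (e : Fin ℓ → Fin (Δ * n)),
          Function.Injective e → (∀ t, e t ∈ I) → ¬ ∀ t, joins (ω (e t)) (c t) (c (cyc t))) ∧
        (∀ i ∈ I, ∀ j ∈ I, i ≠ j → (ω i).2.1 = (ω j).2.1 →
          ¬ clash (ω i).2.2 (ω j).2.2) := by
  have hp' : (0:ℝ) < p := by exact_mod_cast hp
  have hΔ' : (0:ℝ) < Δ := by exact_mod_cast hΔ
  set B : ℝ := 1 + ∑ ℓ ∈ Finset.Icc 2 T, (2 * Δ : ℝ) ^ ℓ with hB
  obtain ⟨n₁, hn₁⟩ := exists_nat_ge (8 * B)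
  refine ⟨n₁ + 1, fun n hn => ⟨by omega, fun N hN => ?_⟩⟩
  have hn0 : 0 < n := by omega
  have hn' : (0:ℝ) < n := by exact_mod_cast hn0
  haveI : Nonempty (Fin n) := ⟨⟨0, hn0⟩⟩
  set Ω := Fin (Δ * n) → Fin n × Fin n × Y with hΩ
  -- number of bad configurations
  let ZD : Ω → ℕ → Finset (Finset (Fin n ⊕ Fin n) × Finset (Fin (Δ * n))) := fun ω s =>
    (denseConf n Δ Q s).filter (fun k => ∀ i ∈ k.2, inside (ω i) k.1)
  let ZC : Ω → (ℓ : ℕ) → Finset ((Fin ℓ → Fin n ⊕ Fin n) × (Fin ℓ → Fin (Δ * n))) := fun ω ℓ =>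
    (cycConf n Δ ℓ).filter (fun k => ∀ t, joins (ω (k.2 t)) (k.1 t) (k.1 (cyc t)))
  let ZX : Ω → Finset (Fin (Δ * n) × Fin (Δ * n)) := fun ω =>
    (clashConf n Δ).filter (fun k => (ω k.1).2.1 = (ω k.2).2.1 ∧ clash (ω k.1).2.2 (ω k.2).2.2)
  let Z : Ω → ℝ := fun ω => (∑ s ∈ Finset.Icc 1 N, ((ZD ω s).card : ℝ)) +
    (∑ ℓ ∈ Finset.Icc 2 T, ((ZC ω ℓ).card : ℝ)) + ((ZX ω).card : ℝ)
  have hZ0 : ∀ ω, 0 ≤ Z ω := fun ω =>
    add_nonneg (add_nonneg (Finset.sum_nonneg fun _ _ => Nat.cast_nonneg _)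
      (Finset.sum_nonneg fun _ _ => Nat.cast_nonneg _)) (Nat.cast_nonneg _)
  have hΩ0 : (0:ℝ) ≤ Fintype.card Ω := Nat.cast_nonneg _
  have hZsum : ∑ ω, Z ω ≤ (Δ * n / 2 : ℝ) / 2 * Fintype.card Ω := by
    have e1 : ∑ ω : Ω, (∑ s ∈ Finset.Icc 1 N, ((ZD ω s).card : ℝ)) ≤ 1 * Fintype.card Ω := by
      rw [Finset.sum_comm]
      have : ∀ s ∈ Finset.Icc 1 N, (∑ ω : Ω, ((ZD ω s).card : ℝ)) =
          (∑ k ∈ denseConf n Δ Q s, pr (fun ω : Ω => ∀ i ∈ k.2, inside (ω i) k.1)) *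
            Fintype.card Ω := by
        intro s _
        exact sum_card_filter (denseConf n Δ Q s) (fun k (ω : Ω) => ∀ i ∈ k.2, inside (ω i) k.1)
      rw [Finset.sum_congr rfl this, ← Finset.sum_mul]
      exact mul_le_mul_of_nonneg_right (sum_dense hn0 hQ hΔ hN) hΩ0
    have e2 : ∑ ω : Ω, (∑ ℓ ∈ Finset.Icc 2 T, ((ZC ω ℓ).card : ℝ)) ≤
        (∑ ℓ ∈ Finset.Icc 2 T, (2 * Δ : ℝ) ^ ℓ) * Fintype.card Ω := by
      rw [Finset.sum_comm, Finset.sum_mul]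
      refine Finset.sum_le_sum fun ℓ _ => ?_
      have : (∑ ω : Ω, ((ZC ω ℓ).card : ℝ)) =
          (∑ k ∈ cycConf n Δ ℓ, pr (fun ω : Ω => ∀ t, joins (ω (k.2 t)) (k.1 t)
            (k.1 (cyc t)))) * Fintype.card Ω :=
        sum_card_filter (cycConf n Δ ℓ)
          (fun k (ω : Ω) => ∀ t, joins (ω (k.2 t)) (k.1 t) (k.1 (cyc t)))
      rw [this]
      exact mul_le_mul_of_nonneg_right (sum_cyc hn0 ℓ) hΩ0
    have e3 : ∑ ω : Ω, ((ZX ω).card : ℝ) ≤ ((Δ:ℝ) ^ 2 * n / p) * Fintype.card Ω := by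
      have : (∑ ω : Ω, ((ZX ω).card : ℝ)) =
          (∑ k ∈ clashConf n Δ, pr (fun ω : Ω =>
            (ω k.1).2.1 = (ω k.2).2.1 ∧ clash (ω k.1).2.2 (ω k.2).2.2)) * Fintype.card Ω :=
        sum_card_filter (clashConf n Δ)
          (fun k (ω : Ω) => (ω k.1).2.1 = (ω k.2).2.1 ∧ clash (ω k.1).2.2 (ω k.2).2.2)
      rw [this]
      exact mul_le_mul_of_nonneg_right (sum_clash hn0 hp clash hclash) hΩ0
    have e4 : (Δ:ℝ) ^ 2 * n / p ≤ Δ * n / 8 := by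
      rw [div_le_div_iff₀ hp' (by norm_num)]
      have : (8:ℝ) * Δ ≤ p := by exact_mod_cast hpΔ
      nlinarith [mul_nonneg (mul_nonneg hΔ'.le hn'.le) (sub_nonneg.2 this)]
    have e5 : B ≤ Δ * n / 8 := by
      have h1 : (n₁ : ℝ) ≤ n := by
        have : n₁ ≤ n := by omega
        exact_mod_cast this
      have h2 : (1:ℝ) ≤ Δ := by exact_mod_cast hΔ
      have h3 : (n:ℝ) ≤ Δ * n := by nlinarith
      linarith
    calc ∑ ω, Z ω = (∑ ω : Ω, (∑ s ∈ Finset.Icc 1 N, ((ZD ω s).card : ℝ))) +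
          (∑ ω : Ω, (∑ ℓ ∈ Finset.Icc 2 T, ((ZC ω ℓ).card : ℝ))) +
          ∑ ω : Ω, ((ZX ω).card : ℝ) := by
          simp only [Z]
          rw [Finset.sum_add_distrib, Finset.sum_add_distrib]
      _ ≤ 1 * Fintype.card Ω + (∑ ℓ ∈ Finset.Icc 2 T, (2 * Δ : ℝ) ^ ℓ) * Fintype.card Ω +
          ((Δ:ℝ) ^ 2 * n / p) * Fintype.card Ω := add_le_add (add_le_add e1 e2) e3
      _ = (B + (Δ:ℝ) ^ 2 * n / p) * Fintype.card Ω := by rw [hB]; ring
      _ ≤ (Δ * n / 2 : ℝ) / 2 * Fintype.card Ω := by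
          apply mul_le_mul_of_nonneg_right _ hΩ0
          linarith
  obtain ⟨ω, hωA, hωZ⟩ := exists_good
    (fun ω : Ω => ∀ (f : Fin n → Λl) (g : Fin n → Λr),
      (Finset.univ.filter (fun i => π (ω i).2.2 (g (ω i).2.1) = f (ω i).1)).card < K * n)
    Z (Δ * n / 2) (by positivity) (pr_soundK π p Δ K hK hp hn0 hsat hA) hZ0 hZsum
  -- deleted indices
  have hm : 0 < Δ * n := Nat.mul_pos hΔ hn0
  let i₀ : Fin (Δ * n) := ⟨0, hm⟩
  let pick : Finset (Fin (Δ * n)) → Fin (Δ * n) := fun J => if h : J.Nonempty then h.choose else i₀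
  have hpick : ∀ J : Finset (Fin (Δ * n)), J.Nonempty → pick J ∈ J := by
    intro J hJ
    simp only [pick, dif_pos hJ]
    exact hJ.choose_spec
  let fst : (ℓ : ℕ) → (Fin ℓ → Fin (Δ * n)) → Fin (Δ * n) := fun ℓ e =>
    if h : 0 < ℓ then e ⟨0, h⟩ else i₀
  let D1 : Finset (Fin (Δ * n)) := (Finset.Icc 1 N).biUnion (fun s =>
    (ZD ω s).image (fun k => pick k.2))
  let D2 : Finset (Fin (Δ * n)) := (Finset.Icc 2 T).biUnion (fun ℓ =>
    (ZC ω ℓ).image (fun k => fst ℓ k.2))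
  let D3 : Finset (Fin (Δ * n)) := (ZX ω).image Prod.fst
  have hD1 : (D1.card : ℝ) ≤ ∑ s ∈ Finset.Icc 1 N, ((ZD ω s).card : ℝ) := by
    rw [← Nat.cast_sum]
    norm_cast
    exact Finset.card_biUnion_le.trans (Finset.sum_le_sum fun s _ => Finset.card_image_le)
  have hD2 : (D2.card : ℝ) ≤ ∑ ℓ ∈ Finset.Icc 2 T, ((ZC ω ℓ).card : ℝ) := by
    rw [← Nat.cast_sum]
    norm_cast
    exact Finset.card_biUnion_le.trans (Finset.sum_le_sum fun s _ => Finset.card_image_le)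
  have hD3 : (D3.card : ℝ) ≤ ((ZX ω).card : ℝ) := by
    norm_cast
    exact Finset.card_image_le
  have hD : ((D1 ∪ D2 ∪ D3).card : ℝ) ≤ Δ * n / 2 := by
    have h1 : ((D1 ∪ D2 ∪ D3).card : ℝ) ≤ D1.card + D2.card + D3.card := by
      have h2 := Finset.card_union_le (D1 ∪ D2) D3
      have h3 := Finset.card_union_le D1 D2
      have : (D1 ∪ D2 ∪ D3).card ≤ D1.card + D2.card + D3.card := by omega
      exact_mod_cast this
    have h4 : Z ω = (∑ s ∈ Finset.Icc 1 N, ((ZD ω s).card : ℝ)) +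
      (∑ ℓ ∈ Finset.Icc 2 T, ((ZC ω ℓ).card : ℝ)) + ((ZX ω).card : ℝ) := rfl
    linarith
  refine ⟨ω, (D1 ∪ D2 ∪ D3)ᶜ, ?_, fun f g J hJ => lt_of_le_of_lt (Finset.card_le_card
    (fun i hi => Finset.mem_filter.2 ⟨Finset.mem_univ _, hJ i hi⟩)) (hωA f g), ?_, ?_, ?_⟩
  · have h1 : (D1 ∪ D2 ∪ D3).card + ((D1 ∪ D2 ∪ D3)ᶜ).card = Δ * n := by
      rw [Finset.card_add_card_compl, Fintype.card_fin]
    have h2 : 2 * (D1 ∪ D2 ∪ D3).card ≤ Δ * n := by
      have : (2:ℝ) * (D1 ∪ D2 ∪ D3).card ≤ Δ * n := by linarith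
      exact_mod_cast this
    omega
  · intro S hS hSN
    by_contra hcon
    push Not at hcon
    obtain ⟨J, hJ, hJc⟩ := Finset.exists_subset_card_eq hcon
    have hJne : J.Nonempty := by
      rw [← Finset.card_pos, hJc]
      have := Finset.card_pos.2 hS
      omega
    have h1 := hJ (hpick J hJne)
    have h2 := (Finset.mem_filter.1 h1).1
    rw [Finset.mem_compl] at h2
    apply h2
    apply Finset.mem_union_left
    apply Finset.mem_union_left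
    refine Finset.mem_biUnion.2 ⟨S.card, Finset.mem_Icc.2 ⟨Finset.card_pos.2 hS, hSN⟩, ?_⟩
    refine Finset.mem_image.2 ⟨(S, J), ?_, rfl⟩
    refine Finset.mem_filter.2 ⟨?_, ?_⟩
    · exact Finset.mem_product.2 ⟨Finset.mem_powersetCard.2 ⟨Finset.subset_univ _, rfl⟩,
        Finset.mem_powersetCard.2 ⟨Finset.subset_univ _, hJc⟩⟩
    · intro i hi
      exact (Finset.mem_filter.1 (hJ hi)).2
  · intro ℓ h2 hT c e he heI hall
    have h3 := heI ⟨0, by omega⟩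
    rw [Finset.mem_compl] at h3
    apply h3
    apply Finset.mem_union_left
    apply Finset.mem_union_right
    refine Finset.mem_biUnion.2 ⟨ℓ, Finset.mem_Icc.2 ⟨h2, hT⟩, ?_⟩
    refine Finset.mem_image.2 ⟨(c, e), ?_, ?_⟩
    · exact Finset.mem_filter.2 ⟨Finset.mem_filter.2 ⟨Finset.mem_univ _, he⟩, hall⟩
    · have : 0 < ℓ := by omega
      simp only [fst, dif_pos this]
  · intro i hi j hj hij hw hc
    rw [Finset.mem_compl] at hi
    apply hi
    apply Finset.mem_union_right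
    refine Finset.mem_image.2 ⟨(i, j), ?_, rfl⟩
    exact Finset.mem_filter.2 ⟨Finset.mem_filter.2 ⟨Finset.mem_univ _, hij⟩, hw, hc⟩

end

end Pool.H90.MG
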