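import Pool.Agent.H17.LC7
import Pool.Agent.H90.MG.Omega
import Pool.Agent.H90.MG.Defs

/-!
The base instances: value at most a constant times `log (d R) / R`, passing consistency tests of
linear width. (helper17's instances with a sharper union bound.)
-/

namespace Pool.H90.MG

open Finset
open scoped Classical
open Pool.H17.LC

set_option linter.unusedSectionVars false
set_option linter.unusedFintypeInType false
set_option linter.style.haveILetI false

noncomputable section

variable {V W : Type} [Fintype V] [Fintype W] {d R : ℕ}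

/-- The pebbling given by a labelling of a set. -/
def lab {n p r : ℕ} (eL : ZMod p ⊕ ZMod r ≃ Fin R)
    (eR : (ZMod p ⊕ ZMod r) × Fin d ≃ Fin (d * R)) (X : Finset (Fin n ⊕ Fin n))
    (f : Fin n ⊕ Fin n → ZMod p × Fin d) : Pebbling (Fin n) (Fin n) d R :=
  (fun v => if Sum.inl v ∈ X then some (eL (Sum.inl (f (Sum.inl v)).1)) else none,
    fun w => if Sum.inr w ∈ X then some (eR (Sum.inl (f (Sum.inr w)).1, (f (Sum.inr w)).2))
      else none)

lemma size_lab {n p r : ℕ} (eL : ZMod p ⊕ ZMod r ≃ Fin R)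
    (eR : (ZMod p ⊕ ZMod r) × Fin d ≃ Fin (d * R)) (X : Finset (Fin n ⊕ Fin n))
    (f : Fin n ⊕ Fin n → ZMod p × Fin d) : size (lab eL eR X f) = X.card := by
  unfold size lab
  have h1 : (Finset.univ.filter (fun v : Fin n => (if (Sum.inl v : Fin n ⊕ Fin n) ∈ X then
      some (eL (Sum.inl (f (Sum.inl v)).1)) else none).isSome)) = X.toLeft := by
    ext v
    simp only [Finset.mem_filter, Finset.mem_univ, true_and, Finset.mem_toLeft]
    by_cases h : (Sum.inl v : Fin n ⊕ Fin n) ∈ X <;> simp [h]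
  have h2 : (Finset.univ.filter (fun w : Fin n => (if (Sum.inr w : Fin n ⊕ Fin n) ∈ X then
      some (eR (Sum.inl (f (Sum.inr w)).1, (f (Sum.inr w)).2)) else none).isSome)) =
      X.toRight := by
    ext v
    simp only [Finset.mem_filter, Finset.mem_univ, true_and, Finset.mem_toRight]
    by_cases h : (Sum.inr v : Fin n ⊕ Fin n) ∈ X <;> simp [h]
  rw [h1, h2, Finset.card_toLeft_add_card_toRight]

/-- Assembly for fixed parameters. -/
theorem main_aux (d p r Δ K : ℕ) [Fact p.Prime] (hK : 0 < K) (hd : 2 ≤ d) (hpr : p ≤ r) (hΔ : 0 < Δ)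
    (hpΔ : 8 * Δ ≤ p) (hR : p + r = R)
    (hA : (R : ℝ) * (d * R) * (3 * Δ / K / p) ^ K ≤ 1 / 4) :
    ∃ γ : ℝ, 0 < γ ∧ ∃ n₀ : ℕ, ∀ n ≥ n₀, 0 < n ∧
      ∃ Φ : LabelCover (Fin n) (Fin n) d R, Φ.E.card ≤ Δ * n ∧ Δ * n ≤ 2 * Φ.E.card ∧
        (∀ (f : Fin n → Fin R) (g : Fin n → Fin (d * R)),
          (Φ.E.filter (fun e => Φ.π e (g e.2) = f e.1)).card < K * n) ∧
        Φ.LocallyConsistent ⌊γ * n⌋₊ := by
  have hp0 : 0 < p := (Fact.out : p.Prime).pos
  haveI : NeZero p := ⟨hp0.ne'⟩
  haveI : NeZero r := ⟨by omega⟩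
  set T := 2 * p + 1 with hT
  set q := 3 * T + 2 with hq
  set Q := 2 * q with hQ
  set c := (36 * Δ) ^ Q * (3 * Δ) with hc
  have hc0 : 0 < c := by positivity
  have hcardL : Fintype.card (ZMod p ⊕ ZMod r) = R := by
    rw [Fintype.card_sum, ZMod.card, ZMod.card, hR]
  have hcardR : Fintype.card ((ZMod p ⊕ ZMod r) × Fin d) = d * R := by
    rw [Fintype.card_prod, hcardL, Fintype.card_fin, mul_comm]
  have eL : ZMod p ⊕ ZMod r ≃ Fin R := Fintype.equivFinOfCardEq hcardL
  have eR : (ZMod p ⊕ ZMod r) × Fin d ≃ Fin (d * R) := Fintype.equivFinOfCardEq hcardR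
  obtain ⟨n₀, hn₀⟩ := exists_omegaK (Y := YY p r d) (fun y b => piY y b) clashY p Δ Q T K hK hp0 hΔ
    (by omega) hpΔ (fun b c => piY_sat hpr b c _) (clashY_card hd)
    (by rw [hcardL, hcardR]; push_cast; exact hA)
  refine ⟨1 / (8 * q * c), by positivity, n₀, fun n hn => ?_⟩
  obtain ⟨hn0, hex⟩ := hn₀ n hn
  refine ⟨hn0, ?_⟩
  set N := n / c with hN
  obtain ⟨ω, I, hI1, hI2, hI3, hI4, hI5⟩ := hex N (Nat.mul_div_le n c)
  have hNoCyc : NoCyc ω I T := hI4
  have huniq : ∀ {i j : Fin (Δ * n)}, i ∈ I → j ∈ I → (ω i).1 = (ω j).1 →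
      (ω i).2.1 = (ω j).2.1 → i = j := fun hi hj h1 h2 =>
    kE_unique (by omega) hNoCyc hi hj h1 h2
  -- data of an edge
  let y : Fin n → Fin n → YY p r d := fun v w =>
    if h : ∃ i, i ∈ I ∧ (ω i).1 = v ∧ (ω i).2.1 = w then (ω h.choose).2.2 else (fun _ => 0, 0)
  have hy : ∀ i ∈ I, y (ω i).1 (ω i).2.1 = (ω i).2.2 := by
    intro i hi
    have h : ∃ j, j ∈ I ∧ (ω j).1 = (ω i).1 ∧ (ω j).2.1 = (ω i).2.1 := ⟨i, hi, rfl, rfl⟩
    have e1 : y (ω i).1 (ω i).2.1 = (ω h.choose).2.2 := by simp only [y, dif_pos h]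
    have e2 : h.choose = i := huniq h.choose_spec.1 hi h.choose_spec.2.1 h.choose_spec.2.2
    rw [e1, e2]
  let i0 : Fin d := ⟨0, by omega⟩
  have hclash : ∀ v v' w, v ≠ v' → kE ω I v w → kE ω I v' w →
      ∃ i i', (y v' w).1 i - (y v w).1 i ≠ (y v' w).1 i' - (y v w).1 i' := by
    rintro v v' w hvv ⟨i, hi, rfl, rfl⟩ ⟨j, hj, rfl, hw⟩
    have hne : i ≠ j := by
      rintro rfl
      exact hvv rfl
    have h := hI5 i hi j hj hne hw.symm
    unfold clashY at h
    push Not at h
    rw [hy i hi, ← hw, hy j hj]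
    exact h
  let F := flexB i0 (kE ω I) (fun v w => (y v w).1) hclash
  -- the instance
  let E : Finset (Fin n × Fin n) := I.image (fun i => ((ω i).1, (ω i).2.1))
  have hEmem : ∀ v w, (v, w) ∈ E ↔ kE ω I v w := by
    intro v w
    simp only [E, Finset.mem_image, kE, Prod.mk.injEq]
  have hEinj : Set.InjOn (fun i => ((ω i).1, (ω i).2.1)) (I : Set (Fin (Δ * n))) := by
    intro i hi j hj h
    simp only [Prod.mk.injEq] at h
    exact huniq hi hj h.1 h.2
  have hEcard : E.card = I.card := Finset.card_image_of_injOn hEinj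
  let Φ : LabelCover (Fin n) (Fin n) d R :=
    { E := E
      π := fun e b => eL (piY (y e.1 e.2) (eR.symm b))
      dto1 := by
        intro e _ a
        refine le_trans ?_ (piY_dto1 (y e.1 e.2) (eL.symm a))
        refine Finset.card_le_card_of_injOn eR.symm ?_ (eR.symm.injective.injOn)
        intro b hb
        have := (Finset.mem_filter.1 (Finset.mem_coe.1 hb)).2
        refine Finset.mem_coe.2 (Finset.mem_filter.2 ⟨Finset.mem_univ _, ?_⟩)
        rw [← this, Equiv.symm_apply_apply] }
  refine ⟨Φ, ?_, ?_, ?_, ?_⟩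
  · show E.card ≤ Δ * n
    rw [hEcard]
    have := Finset.card_le_univ I
    rwa [Fintype.card_fin] at this
  · show Δ * n ≤ 2 * E.card
    rw [hEcard]
    exact hI1
  · intro f g
    let J : Finset (Fin (Δ * n)) := I.filter (fun i =>
      eL (piY (y (ω i).1 (ω i).2.1) (eR.symm (g (ω i).2.1))) = f (ω i).1)
    have hJ := hI2 (fun v => eL.symm (f v)) (fun w => eR.symm (g w)) J (by
      intro i hi
      obtain ⟨hiI, h⟩ := Finset.mem_filter.1 hi
      rw [hy i hiI] at h
      rw [← h, Equiv.symm_apply_apply])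
    refine lt_of_le_of_lt ?_ hJ
    refine le_trans (Finset.card_le_card ?_)
      (Finset.card_image_le (f := fun i => ((ω i).1, (ω i).2.1)))
    intro e he
    obtain ⟨heE, hsat⟩ := Finset.mem_filter.1 he
    obtain ⟨i, hi, rfl⟩ := Finset.mem_image.1 heE
    exact Finset.mem_image.2 ⟨i, Finset.mem_filter.2 ⟨hi, hsat⟩, rfl⟩
  · -- local consistency
    have hshort : NoShort (bip (kE ω I)) T := noShort_of_noCyc hNoCyc
    have hsparse : Sparse (bip (kE ω I)) (2 * q) N := sparse_of (by omega) hI3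
    set k := ⌊1 / (8 * q * c : ℝ) * n⌋₊ with hk
    have hkN : 8 * q * k ≤ N := by
      rw [hN, Nat.le_div_iff_mul_le hc0]
      have h1 : (k : ℝ) ≤ 1 / (8 * q * c : ℝ) * n := Nat.floor_le (by positivity)
      have h2 : (0:ℝ) < 8 * q * c := by positivity
      have h3 : ((8 * q * k * c : ℕ) : ℝ) ≤ n := by
        push_cast
        calc (8:ℝ) * q * k * c = (8 * q * c) * k := by ring
          _ ≤ (8 * q * c) * (1 / (8 * q * c : ℝ) * n) := mul_le_mul_of_nonneg_left h1 h2.le
          _ = n := by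
              rw [← mul_assoc, mul_one_div_cancel h2.ne', one_mul]
      exact_mod_cast h3
    refine ⟨{P | ∃ X f, Good F q N k X f ∧ P = lab eL eR X f}, ?_, ?_, ?_, ?_⟩
    · exact ⟨_, ∅, fun _ => (0, i0), good_empty F hsparse (by omega) _, rfl⟩
    · rintro P ⟨X, f, hgood, rfl⟩
      refine ⟨by rw [size_lab]; exact hgood.1, ?_⟩
      rintro ⟨v, w⟩ he a b ha hb
      have hadj : (bip (kE ω I)).Adj (Sum.inl v) (Sum.inr w) := bip_lr.2 ((hEmem v w).1 he)
      by_cases hvX : (Sum.inl v : Fin n ⊕ Fin n) ∈ X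
      swap
      · simp [lab, hvX] at ha
      by_cases hwX : (Sum.inr w : Fin n ⊕ Fin n) ∈ X
      swap
      · simp [lab, hwX] at hb
      have hs := hgood.sat (Sum.inl v) hvX (Sum.inr w) hwX hadj
      have hs' : (f (Sum.inl v)).1 = (f (Sum.inr w)).1 + (y v w).1 (f (Sum.inr w)).2 := hs
      simp only [lab, if_pos hvX, if_pos hwX, Option.some.injEq] at ha hb
      show eL (piY (y v w) (eR.symm b)) = a
      rw [← ha, ← hb, Equiv.symm_apply_apply, hs']
      rfl
    · rintro P ⟨X, f, hgood, rfl⟩ P' ⟨hP1, hP2⟩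
      let X' : Finset (Fin n ⊕ Fin n) := X.filter (fun u => match u with
        | Sum.inl v => (P'.1 v).isSome
        | Sum.inr w => (P'.2 w).isSome)
      refine ⟨X', f, hgood.mono (Finset.filter_subset _ _), ?_⟩
      apply Prod.ext
      · funext v
        show P'.1 v = if Sum.inl v ∈ X' then some (eL (Sum.inl (f (Sum.inl v)).1)) else none
        rcases hv : P'.1 v with _ | a
        · have : (Sum.inl v : Fin n ⊕ Fin n) ∉ X' := by
            intro h
            have := (Finset.mem_filter.1 h).2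
            simp [hv] at this
          rw [if_neg this]
        · have h1 := hP1 v a hv
          by_cases hvX : (Sum.inl v : Fin n ⊕ Fin n) ∈ X
          · have : (Sum.inl v : Fin n ⊕ Fin n) ∈ X' :=
              Finset.mem_filter.2 ⟨hvX, by simp [hv]⟩
            rw [if_pos this]
            simp only [lab, if_pos hvX] at h1
            exact h1.symm
          · simp [lab, hvX] at h1
      · funext w
        show P'.2 w = if Sum.inr w ∈ X' then
          some (eR (Sum.inl (f (Sum.inr w)).1, (f (Sum.inr w)).2)) else none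
        rcases hw : P'.2 w with _ | a
        · have : (Sum.inr w : Fin n ⊕ Fin n) ∉ X' := by
            intro h
            have := (Finset.mem_filter.1 h).2
            simp [hw] at this
          rw [if_neg this]
        · have h1 := hP2 w a hw
          by_cases hwX : (Sum.inr w : Fin n ⊕ Fin n) ∈ X
          · have : (Sum.inr w : Fin n ⊕ Fin n) ∈ X' :=
              Finset.mem_filter.2 ⟨hwX, by simp [hw]⟩
            rw [if_pos this]
            simp only [lab, if_pos hwX] at h1
            exact h1.symm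
          · simp [lab, hwX] at h1
    · rintro P ⟨X, f, hgood, rfl⟩ hsize
      rw [size_lab] at hsize
      have key : ∀ u, ∃ g, (∀ x ∈ X, g x = f x) ∧ Good F q N k (insert u X) g := by
        intro u
        obtain ⟨g, h1, h2⟩ := hgood.forth (by omega) hshort (by omega) hsparse hkN hsize u
        refine ⟨g, h1, h2.mono ?_⟩
        intro z hz
        simpa only [Finset.mem_insert] using hz
      have hext : ∀ u g, (∀ x ∈ X, g x = f x) →
          Extends (lab eL eR X f) (lab eL eR (insert u X) g) := by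
        intro u g hg
        constructor
        · intro v a ha
          by_cases hvX : (Sum.inl v : Fin n ⊕ Fin n) ∈ X
          · simp only [lab, if_pos hvX] at ha
            have : (Sum.inl v : Fin n ⊕ Fin n) ∈ insert u X := Finset.mem_insert_of_mem hvX
            simp only [lab, if_pos this, hg _ hvX]
            exact ha
          · simp [lab, hvX] at ha
        · intro w a ha
          by_cases hwX : (Sum.inr w : Fin n ⊕ Fin n) ∈ X
          · simp only [lab, if_pos hwX] at ha
            have : (Sum.inr w : Fin n ⊕ Fin n) ∈ insert u X := Finset.mem_insert_of_mem hwX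
            simp only [lab, if_pos this, hg _ hwX]
            exact ha
          · simp [lab, hwX] at ha
      constructor
      · intro v
        obtain ⟨g, hg1, hg2⟩ := key (Sum.inl v)
        refine ⟨_, ⟨insert (Sum.inl v) X, g, hg2, rfl⟩, hext _ g hg1, ?_⟩
        have : (Sum.inl v : Fin n ⊕ Fin n) ∈ insert (Sum.inl v) X := Finset.mem_insert_self _ _
        simp only [lab, if_pos this, Option.isSome_some]
      · intro w
        obtain ⟨g, hg1, hg2⟩ := key (Sum.inr w)
        refine ⟨_, ⟨insert (Sum.inr w) X, g, hg2, rfl⟩, hext _ g hg1, ?_⟩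
        have : (Sum.inr w : Fin n ⊕ Fin n) ∈ insert (Sum.inr w) X := Finset.mem_insert_self _ _
        simp only [lab, if_pos this, Option.isSome_some]

end

end Pool.H90.MG
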